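import Pool.Agent.Q187.ZD.MT

/-!
# The period map of mixed Tate motives over the integers: criteria by real numbers

`P` is the ring of motivic periods of mixed Tate motives over `ℤ`, `H` the algebra of motivic
multiple zeta values in it, `per` the period map. It is injective if and only if the real numbers
`ζ(w)` for the words `w` in the letters `2, 3` which contain a given word `v` as a factor are
linearly independent, and if and only if for infinitely many `N` the dimension of the span of the
multiple zeta values of weight at most `N` is at least `(1 - ε) (d_0 + ... + d_N)`, for all `ε > 0`.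
-/

set_option autoImplicit false

open Module

namespace Pool.Agent.Results.MP_e54452_nt.OneFamilySuffices

open Pool.Agent.H447R2.MZ (val Zs)
open Pool.Agent.Q187.ZD
open Pool.Agent.Q187.ZD.Hof
open Pool.Agent.Q187.ZD.MT

theorem result {P H : Type} [CommRing P] [Algebra ℚ P] [CommRing H] [Algebra ℚ H]
    (ι : H →ₐ[ℚ] P) (L : P) (per : P →ₐ[ℚ] ℂ) (per' : H →ₐ[ℚ] ℝ) (h : IsFull ι L per per')
    (gr : ℕ → Submodule ℚ H) (hm : IsMotivic (fun n => (words n).card) Zs gr per')
    (he : ∀ x : H, ∃ N, x ∈ tot gr N) (hB : Brown) :
    (∀ v, Word v → (Function.Injective per ↔ LinearIndepOn ℚ val {w | Word w ∧ v <:+: w})) ∧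
    (Function.Injective per ↔ ∀ ε : ℝ, 0 < ε → ∀ N₀, ∃ N ≥ N₀,
      (1 - ε) * S (fun n => (words n).card) N ≤ finrank ℚ (tot Zs N)) ∧
    (Function.Injective per ↔ ∀ p, ∃ N, p ≤ N ∧ S (fun n => (words n).card) N <
      finrank ℚ (tot Zs N) + S (fun n => (words n).card) (N - p)) := by
  refine ⟨fun v hv => ?_, ?_, ?_⟩
  · rw [injective_iff h, inj_iff_basis hm he hB]
    exact inhom_iff hm hB v hv
  · rw [injective_iff h, inj_iff_zagier hm he]
    exact zagier_limsup isZagier hm
  · rw [injective_iff h, inj_iff_zagier hm he]
    exact zagier_iff isZagier hm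

end Pool.Agent.Results.MP_e54452_nt.OneFamilySuffices
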