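import Pool.Agent.Q138.PS.VX
import Pool.Agent.Q138.AI.Re54452

/-!
# The period conjecture for mixed Tate motives over the integers and paths from `0` to `1/t`, `t` close to `α P(n)`

`Transfer t N` says: let `per : P → ℂ` be any period map (a homomorphism of `ℚ`-algebras), let `F 0 ⊆ F 1 ⊆ … ⊆ P` be subspaces
such that `per (F j)` is in the span of the numbers `(2 π i)^a ζ(s)` of weight at most `j` (for instance the effective motivic
periods of mixed Tate motives over `ℤ` of weight at most `j`), and let `lam`, `l u` be elements of `P` with periods `log (1/t)` and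
`Li_u(1/t)` (for instance the motivic multiple polylogarithms, motivic periods of the torsor of paths from `0` to `1/t`). If `per`
is injective on `F N`, then `per` is injective on the span of the products `f lam^a l u`, `f ∈ F j`, `j + a + |u| ≤ N`.

Let `q ≥ 2`. Outside a set of real numbers of Hausdorff dimension at most `q / (q + 1 / (q 2 ^ (q - 1)))` (that is `8 / 9` for
`q = 2`) every `α > 0` has the following property. There is `η > 0` such that the properties `A` of integers named below are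
RARE along `α P(n)`: there is `κ > 0` such that for all large `N` and ALL integral polynomials `P` of degree `q` with positive
leading coefficient and coefficients of size at most `N ^ η`, for all but `N ^ (1 - κ)` of the `n ≤ N`, NO integer `t ≥ 3` with
`|t - ⌊α P(n)⌋| ≤ N ^ κ` has the property `A`.

* For each `N` it is rare that `Transfer t N` fails. So the period conjecture for mixed Tate motives over `ℤ` implies the period
  conjecture for the paths from `0` to `1/t`, in weights at most `N`, outside a rare set of `t`.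
* Let `Wn t N` be the span of the products `(2 π i)^a Li_s(1 - 1/t) Li_u(1/t)` of weight at most `N` and `total N` the predicted
  dimension. The period map of mixed Tate motives over `ℤ` is injective if and only if for each `N` it is rare that
  `dim Wn t N ≠ total N`, and if and only if this is rare for infinitely many `N`.
* It is injective if and only if for all `ε > 0` there are infinitely many `N` for which `dim Wn t N < (24/5 - ε) 2^N` is rare.
-/

set_option autoImplicit false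

namespace Pool.Agent.Results.MP_e54452_nt.PathsNearRealMultiples

open Filter Module Pool.Agent.Q138.PS Pool.Agent.Q138.AI.Re54452
open Pool.Agent.H447R2.MZ (Zs)
open Pool.Agent.Q187.ZD (tot S IsZagier IsMotivic)
open Pool.Agent.Q187.ZD.KZ (T)
open Pool.Agent.Q187.ZD.MT (IsFull)

/-- **Theorem.** -/
theorem result (q : ℕ) (hq : 2 ≤ q) :
    ∃ E : Set ℝ, dimH E ≤ ENNReal.ofReal (q / (q + 1 / ((q : ℝ) * 2 ^ (q - 1)))) ∧ ∀ α : ℝ, 0 < α → α ∉ E →
      ∃ η : ℝ, 0 < η ∧
      (∀ N : ℕ, Rare q α η 3 fun n => ¬ Transfer n N) ∧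
      ∀ (P H : Type) [CommRing P] [Algebra ℚ P] [CommRing H] [Algebra ℚ H]
        (ι : H →ₐ[ℚ] P) (L : P) (per : P →ₐ[ℚ] ℂ) (per' : H →ₐ[ℚ] ℝ) (gr : ℕ → Submodule ℚ H) (d : ℕ → ℕ),
        IsFull ι L per per' → IsZagier d → IsMotivic d Zs gr per' → (∀ x : H, ∃ N, x ∈ tot gr N) →
        (Function.Injective per ↔ ∀ N : ℕ, Rare q α η 3 fun n => ¬ finrank ℚ (Wn n N) = total d N) ∧
        (Function.Injective per ↔ ∀ N₀ : ℕ, ∃ N ≥ N₀, Rare q α η 3 fun n => ¬ finrank ℚ (Wn n N) = total d N) ∧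
        (Function.Injective per ↔ ∀ ε : ℝ, 0 < ε → ∀ N₀ : ℕ, ∃ N ≥ N₀,
          Rare q α η 3 fun n => ¬ (24 / 5 - ε) * 2 ^ N ≤ finrank ℚ (Wn n N)) := by
  obtain ⟨hfew, -, hcrit⟩ := Pool.Agent.Q138.AI.Re54452.result
  have ht : truncated = Pool.Agent.Q189.MV.trunc := by
    funext s
    induction s with
    | nil => rfl
    | cons a s ih =>
      funext N
      show ∑ n ∈ Finset.range N, 1 / ((n : ℝ) + 1) ^ a * truncated s n =
        ∑ n ∈ Finset.range N, 1 / ((n : ℝ) + 1) ^ a * Pool.Agent.Q189.MV.trunc s n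
      rw [ih]
  have hL : Li = Pool.Agent.Q189.MV.Lis := by
    funext s x
    rcases s with _ | ⟨a, s⟩
    · rfl
    · show ∑' n : ℕ, x ^ (n + 1) / ((n : ℝ) + 1) ^ a * truncated s n =
        ∑' n : ℕ, x ^ (n + 1) / ((n : ℝ) + 1) ^ a * Pool.Agent.Q189.MV.trunc s n
      rw [ht]
  have hW : Wn = Pool.Agent.Q189.MV.KZ2.Wn := by
    funext n N
    unfold Wn Pool.Agent.Q189.MV.KZ2.Wn
    rw [hL]
  have hrr : rr = Pool.Agent.Q189.MV.MT2.rr := by
    funext d N
    cases N <;> rfl
  have htot : total = fun d => Pool.Agent.Q189.MV.KZ2.RR (Pool.Agent.Q189.MV.MT2.rr d) := by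
    funext d N
    unfold total Pool.Agent.Q189.MV.KZ2.RR
    rw [hrr]
  obtain ⟨E, hE, hg⟩ := rare_ae (ι := ℕ ⊕ ℕ) q hq (Sum.elim (fun N n => ¬ Transfer n N)
    (fun N n => ¬ ∀ M ≤ N, finrank ℚ (Wn n M) = Pool.Agent.Q189.MV.KZ2.RR (fun k => finrank ℚ (T k)) M))
  refine ⟨E, hE, fun α hα hαE => ?_⟩
  obtain ⟨η, hη, h1⟩ := hg α hα hαE
  have hA := fun N => h1 (Sum.inl N) 3 (hfew N)
  have hB : ∀ N : ℕ, Rare q α η 3 fun n => ¬ ∀ M ≤ N, finrank ℚ (Wn n M) =
      Pool.Agent.Q189.MV.KZ2.RR (fun k => finrank ℚ (T k)) M := by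
    intro N
    refine h1 (Sum.inr N) 3 ?_
    show Few 3 fun n => ¬ ∀ M ≤ N, finrank ℚ (Wn n M) = Pool.Agent.Q189.MV.KZ2.RR (fun k => finrank ℚ (T k)) M
    rw [hW]
    exact Pool.Agent.Q189.MV.KZ2.few_W N
  refine ⟨η, hη, hA, fun P H _ _ _ _ ι L per per' gr d h hd hm he => ?_⟩
  obtain ⟨hc1, hc2⟩ := hcrit P H ι L per per' gr d h hd hm he
  have hT := Pool.Agent.Q189.MV.MT2.tz_le hm
  have hr : Function.Injective per → ∀ k, finrank ℚ (T k) = Pool.Agent.Q189.MV.MT2.rr d k := by
    intro hi k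
    rw [Pool.Agent.Q189.MV.MT2.inj_iff h hm he] at hi
    exact (Pool.Agent.Q189.MV.MT2.finrank_T_eq hT k).2 (fun j _ => hi j) k le_rfl
  have hdim : Function.Injective per → ∀ N, Pool.Agent.Q189.MV.KZ2.RR (fun k => finrank ℚ (T k)) N = total d N := by
    intro hi N
    rw [htot]
    have := hr hi
    simp only [this]
  have key : Function.Injective per → ∀ N : ℕ, Rare q α η 3 fun n => ¬ finrank ℚ (Wn n N) = total d N := by
    intro hi N
    refine (hB N).mono le_rfl fun t _ ht hall => ht ?_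
    rw [hall N le_rfl, hdim hi]
  refine ⟨⟨key, fun hN => hc1.2 fun N => ?_⟩, ⟨fun hi N₀ => ⟨N₀, le_rfl, key hi N₀⟩, fun hN => hc1.2 fun N₀ => ?_⟩,
    ⟨fun hi ε hε N₀ => ?_, fun hN => hc2.2 fun ε hε N₀ => ?_⟩⟩
  · obtain ⟨n, hn, hn'⟩ := (hN N).exists_not hη
    exact ⟨n, by omega, not_not.1 hn'⟩
  · obtain ⟨N, hN1, hN2⟩ := hN N₀
    obtain ⟨n, hn, hn'⟩ := hN2.exists_not hη
    have h5 : ∀ k ≤ N, finrank ℚ (Pool.Agent.Q189.MV.Tz k) = S d k := by
      refine (Pool.Agent.Q189.MV.MT2.one_iff' hT N).2 ⟨n, by omega, ?_⟩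
      rw [← hW]
      have h6 := not_not.1 hn'
      rw [htot] at h6
      exact h6
    obtain ⟨m, hm1, hm2⟩ := (Pool.Agent.Q189.MV.MT2.one_iff' hT N₀).1 fun k hk => h5 k (hk.trans hN1)
    refine ⟨m, hm1, ?_⟩
    rw [hW, htot]
    exact hm2
  · obtain ⟨N, n', hN, hn', hle⟩ := hc2.1 hi ε hε N₀
    refine ⟨N, hN, (key hi N).mono le_rfl fun t _ ht hall => ht ?_⟩
    rw [hall]
    refine hle.trans ?_
    have h5 : finrank ℚ (Wn n' N) ≤ total d N := by
      rw [← hdim hi, hW, Pool.Agent.Q189.MV.KZ2.Wn_eq hn']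
      exact Pool.Agent.Q189.MV.finrank_VG_le Pool.Agent.Q189.MV.KZ2.T_fd Pool.Agent.Q189.MV.KZ2.T_mul hn' N
    exact_mod_cast h5
  · obtain ⟨N, hN1, hN2⟩ := hN ε hε N₀
    obtain ⟨n, hn, hn'⟩ := hN2.exists_not hη
    exact ⟨N, n, hN1, by omega, not_not.1 hn'⟩

end Pool.Agent.Results.MP_e54452_nt.PathsNearRealMultiples
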