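import Pool.Agent.H249.ML.Wr

/-!
# The part of the motivic Lie algebra which acts on the periods of mixed Tate motives over the integers

The ring of the motivic periods of mixed Tate motives over `ℤ` is isomorphic to `H[1/L]`, where `H` is the algebra of
the polynomials in the variable `L` (of weight `1`, the motivic period `2 π i`) over the shuffle algebra on the letters
`0, 1, 2, ...`, the letter `a` of weight `2 a + 3`. The Lie algebra of the unipotent part of the motivic Galois group acts on
`H` by derivations; it is the free Lie algebra `F` generated by the derivations `cut a`, which remove the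
first letter of a word if it is `a`, and send all other words and the variable to zero. `H` corresponds to the effective
periods, generated by `2 π i` and the multiple zeta values.

A period map is a homomorphism `per` of algebras from `H` to the complex numbers which maps the elements of weight
`n` onto the space of the products of powers of `2 π i` and multiple zeta values of total weight `n`, for each `n`, and the
variable to `2 π i`. Its kernel, the ideal of all relations, is not assumed to be homogeneous.
-/

set_option autoImplicit false

open Submodule Module Polynomial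

namespace Pool.Agent.Results.MP_e54452_nt.StabilizerOfThePeriodMap

open Pool.Agent.H447R2.MZ (Zs)
open Pool.Agent.H249.ML.Two (H vari Der LieSub F)
open Pool.Agent.H249.ML.Wr

/-- The weights: the letter `a` has weight `2 a + 3`, the variable has weight `1`. -/
def W : Pool.Agent.H249.ML.Wt where
  L a := 2 * a + 3
  e := 1
  pos a := by omega
  epos := one_pos
  fin n := (Set.finite_Iic n).subset fun a h => by
    change a ≤ n
    have : 2 * a + 3 ≤ n := h
    omega

/-- The span of the products `(2 π i)^a z`, `z` a multiple zeta value of weight `j`, `a + j = n`. -/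
noncomputable def E (n : ℕ) : Submodule ℚ ℂ :=
  Submodule.span ℚ {x | ∃ a j : ℕ, a + j = n ∧ ∃ z ∈ Zs j, x = (2 * Real.pi * Complex.I) ^ a * (z : ℂ)}

/-- The dimension of `E 0 + ... + E n`. -/
noncomputable def D (n : ℕ) : ℕ := finrank ℚ (⨆ k : {k : ℕ // k ≤ n}, E k.1 : Submodule ℚ ℂ)

/-- A homomorphism of algebras which maps the elements of weight `n` onto `E n`, for each `n`, and the variable to
`2 π i`. -/
def IsPeriodMap (per : H →ₐ[ℚ] ℂ) : Prop :=
  (∀ n, ∀ z : ℂ, (∃ x ∈ part W n, per x = z) ↔ z ∈ E n) ∧ per vari = 2 * Real.pi * Complex.I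

section

open Pool.Agent.H249.MZ

theorem isPer {per : H →ₐ[ℚ] ℂ} (h : IsPeriodMap per) : Pool.Agent.H249.ML.IsPer W E per := by
  intro w
  ext z
  exact h.1 w z

theorem trans_vari {per : H →ₐ[ℚ] ℂ} (h : IsPeriodMap per) : Transcendental ℚ (per vari) := by
  rw [h.2]
  intro h1
  have h2 : IsAlgebraic ℚ ((Real.pi : ℂ) ^ 2) := by
    have h3 := (h1.pow 2).mul (isAlgebraic_algebraMap (R := ℚ) (A := ℂ) (-(1 / 4)))
    have h4 : (2 * (Real.pi : ℂ) * Complex.I) ^ 2 * algebraMap ℚ ℂ (-(1 / 4)) = (Real.pi : ℂ) ^ 2 := by
      rw [mul_pow, mul_pow, Complex.I_sq, eq_ratCast]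
      push_cast
      ring
    rwa [h4] at h3
  exact Pool.Agent.H249.ML.Re.trans_sq Pool.Agent.H340R2.LW.transcendental_pi_complex h2

theorem inj_away {per : HH →ₐ[ℚ] ℂ} (P : Type) [CommRing P] [Algebra HH P]
    [IsLocalization.Away (X : HH) P] (per' : P →+* ℂ) (h : ∀ x : HH, per' (algebraMap HH P x) = per x) :
    Function.Injective per' ↔ Function.Injective per := by
  have h1 : NoZeroDivisors HH := ⟨fun {a b} hab => HH_dom a b hab⟩
  have h2 : IsDomain HH := NoZeroDivisors.to_isDomain HH
  have hX0 : (X : HH) ≠ 0 := X_ne_zero
  constructor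
  · intro hi x y hxy
    have h3 : algebraMap HH P x = algebraMap HH P y := hi (by rw [h, h, hxy])
    exact IsLocalization.injective P (powers_le_nonZeroDivisors_of_noZeroDivisors hX0) h3
  · intro hi
    rw [injective_iff_map_eq_zero]
    intro x hx
    obtain ⟨⟨a, s⟩, hs⟩ := IsLocalization.surj (Submonoid.powers (X : HH)) x
    simp only at hs
    have h3 : per a = 0 := by rw [← h, ← hs, map_mul, hx, zero_mul]
    have h4 : a = 0 := hi (by rw [h3, map_zero])
    rw [h4, map_zero] at hs
    exact ((IsLocalization.map_units P s).mul_left_eq_zero).mp hs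

end

/-- **Theorem.** For every period map `per` there is a largest graded Lie subalgebra `S₀` of `F` which preserves the
relations. For graded Lie subalgebras `S` of `F` the following are equivalent: `S` is contained in `S₀`; the relations
are generated by relations killed by `S`; the dimension `D n` is equal to the bound `bound W per S n` for all `n`,
which holds for every `S`. The ideal of the relations is finitely generated if and only if `S₀` contains all
elements of `F` of large degree. The period map is injective on all motivic periods (on `P = H[1/L]`) if and only if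
`S₀ = F`. -/
theorem result (per : H →ₐ[ℚ] ℂ) (hper : IsPeriodMap per) :
    ∃ S₀ : LieSub, IsGradedSub W S₀ ∧
      (∀ S, IsGradedSub W S → (Stable per S ↔ S ≤ S₀) ∧ (Generated per S ↔ S ≤ S₀) ∧
        ((∀ n, (D n : ℚ) = bound W per S n) ↔ S ≤ S₀) ∧ ∀ n, (D n : ℚ) ≤ bound W per S n) ∧
      ((RingHom.ker per).FG ↔ ∃ N, ∀ k > N, ∀ d, F.Has d → Lowers W k d → S₀.Has d) ∧
      ∀ (P : Type) [CommRing P] [Algebra H P] [IsLocalization.Away vari P] (per' : P →+* ℂ),
        (∀ x, per' (algebraMap H P x) = per x) → (Function.Injective per' ↔ S₀ = F) := by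
  obtain ⟨S₀, h1, h2, h3, h4⟩ := main (isPer hper) (trans_vari hper)
  refine ⟨S₀, h1, h2, h4, fun P i1 i2 i3 per' h => ?_⟩
  rw [← h3]
  exact @inj_away per P i1 i2 i3 per' h

end Pool.Agent.Results.MP_e54452_nt.StabilizerOfThePeriodMap
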